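import Pool.Agent.Helper44.GF.Defs

/-!
# Module GAP: abstract spectral gap
-/

set_option autoImplicit false

open Finset MeasureTheory Filter Topology
open scoped ENNReal ContDiff

namespace Pool.Agent.Helper44.GF

section

variable {X : Type} [Fintype X] [DecidableEq X]

/-- polarised Dirichlet form -/
def gap_B (W : Finset X → ℝ) (b : Finset X → X → ℝ) (F G : Finset X → ℝ) : ℝ :=
  ∑ η, W η * ∑ x ∈ ηᶜ, b η x * (dd F η x * dd G η x)

theorem gap_sbp (h1 : ST_GNZ) {W : Finset X → ℝ} {b : Finset X → X → ℝ} (hc : Compat W b)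
    (F G : Finset X → ℝ) : ∑ η, W η * (F η * gen b G η) = - gap_B W b F G := by
  have h2 := h1 X W b hc (fun ζ x => F (insert x ζ) * dd G ζ x)
  have h3 : ∑ η, W η * ∑ y ∈ η, F (insert y (η.erase y)) * dd G (η.erase y) y =
      ∑ η, W η * (F η * ∑ y ∈ η, dd G (η.erase y) y) := by
    apply Finset.sum_congr rfl
    intro η _
    congr 1
    rw [Finset.mul_sum]
    apply Finset.sum_congr rfl
    intro y hy
    rw [Finset.insert_erase hy]
  rw [h3] at h2
  unfold gap_B gen
  have h4 : ∀ η, W η * (F η * (∑ x ∈ ηᶜ, b η x * dd G η x - ∑ x ∈ η, dd G (η.erase x) x)) =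
      W η * ∑ x ∈ ηᶜ, b η x * (F η * dd G η x) - W η * (F η * ∑ x ∈ η, dd G (η.erase x) x) := by
    intro η
    rw [mul_sub, mul_sub, Finset.mul_sum]
    congr 2
    apply Finset.sum_congr rfl
    intro x _; ring
  simp_rw [h4]
  rw [Finset.sum_sub_distrib, h2, ← Finset.sum_sub_distrib, ← Finset.sum_neg_distrib]
  apply Finset.sum_congr rfl
  intro η _
  rw [← mul_sub, ← Finset.sum_sub_distrib, ← mul_neg, ← Finset.sum_neg_distrib]
  congr 1
  apply Finset.sum_congr rfl
  intro x _
  unfold dd; ring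

theorem gap_const {W : Finset X → ℝ} {b : Finset X → X → ℝ} (hW : ∀ η, 0 < W η)
    (hb : ∀ η x, 0 < b η x) {g : Finset X → ℝ} (hd : dir W b g = 0) : ∀ η, g η = g ∅ := by
  have h1 : ∀ η x, x ∉ η → dd g η x = 0 := by
    intro η x hx
    unfold dir at hd
    have h2 : ∀ η ∈ (univ : Finset (Finset X)), 0 ≤ W η * ∑ x ∈ ηᶜ, b η x * dd g η x ^ 2 := by
      intro η _
      apply mul_nonneg (hW η).le
      apply Finset.sum_nonneg
      intro x _
      exact mul_nonneg (hb η x).le (sq_nonneg _)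
    have h3 := (Finset.sum_eq_zero_iff_of_nonneg h2).1 hd η (mem_univ _)
    have h4 := (mul_eq_zero.1 h3).resolve_left (hW η).ne'
    have h5 := (Finset.sum_eq_zero_iff_of_nonneg (fun x _ =>
      mul_nonneg (hb η x).le (sq_nonneg _))).1 h4 x (by rw [mem_compl]; exact hx)
    have h6 := (mul_eq_zero.1 h5).resolve_left (hb η x).ne'
    exact pow_eq_zero_iff (two_ne_zero) |>.1 h6
  intro η
  induction η using Finset.induction_on with
  | empty => rfl
  | insert x η hx ih =>
    have := h1 η x hx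
    unfold dd at this
    linarith

/-- the operator `gen` plus the mean -/
noncomputable def gap_L (W : Finset X → ℝ) (b : Finset X → X → ℝ) :
    (Finset X → ℝ) →ₗ[ℝ] (Finset X → ℝ) where
  toFun g := fun η => gen b g η + ∑ ζ, W ζ * g ζ
  map_add' := by
    intro g g'
    funext η
    simp only [Pi.add_apply, gen, dd]
    have e1 : ∑ ζ, W ζ * (g ζ + g' ζ) = ∑ ζ, W ζ * g ζ + ∑ ζ, W ζ * g' ζ := by
      rw [← Finset.sum_add_distrib]; exact Finset.sum_congr rfl fun _ _ => by ring
    have e2 : ∑ x ∈ ηᶜ, b η x * (g (insert x η) + g' (insert x η) - (g η + g' η)) =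
        ∑ x ∈ ηᶜ, b η x * (g (insert x η) - g η) + ∑ x ∈ ηᶜ, b η x * (g' (insert x η) - g' η) := by
      rw [← Finset.sum_add_distrib]; exact Finset.sum_congr rfl fun _ _ => by ring
    have e3 : ∑ x ∈ η, (g (insert x (η.erase x)) + g' (insert x (η.erase x)) -
        (g (η.erase x) + g' (η.erase x))) =
        ∑ x ∈ η, (g (insert x (η.erase x)) - g (η.erase x)) +
        ∑ x ∈ η, (g' (insert x (η.erase x)) - g' (η.erase x)) := by
      rw [← Finset.sum_add_distrib]; exact Finset.sum_congr rfl fun _ _ => by ring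
    rw [e1, e2, e3]; ring
  map_smul' := by
    intro c g
    funext η
    simp only [Pi.smul_apply, smul_eq_mul, gen, dd, RingHom.id_apply]
    have e1 : ∑ ζ, W ζ * (c * g ζ) = c * ∑ ζ, W ζ * g ζ := by
      rw [Finset.mul_sum]; exact Finset.sum_congr rfl fun _ _ => by ring
    have e2 : ∑ x ∈ ηᶜ, b η x * (c * g (insert x η) - c * g η) =
        c * ∑ x ∈ ηᶜ, b η x * (g (insert x η) - g η) := by
      rw [Finset.mul_sum]; exact Finset.sum_congr rfl fun _ _ => by ring
    have e3 : ∑ x ∈ η, (c * g (insert x (η.erase x)) - c * g (η.erase x)) =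
        c * ∑ x ∈ η, (g (insert x (η.erase x)) - g (η.erase x)) := by
      rw [Finset.mul_sum]; exact Finset.sum_congr rfl fun _ _ => by ring
    rw [e1, e2, e3]; ring

theorem gap_L_apply (W : Finset X → ℝ) (b : Finset X → X → ℝ) (g : Finset X → ℝ)
    (η : Finset X) : gap_L W b g η = gen b g η + ∑ ζ, W ζ * g ζ := rfl

theorem gap_gen_mean (h1 : ST_GNZ) {W : Finset X → ℝ} {b : Finset X → X → ℝ} (hc : Compat W b)
    (g : Finset X → ℝ) : ∑ η, W η * gen b g η = 0 := by
  have h2 := gap_sbp h1 hc (fun _ => 1) g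
  simp only [one_mul] at h2
  rw [h2]
  unfold gap_B dd
  simp

theorem gap_dir_eq {W : Finset X → ℝ} {b : Finset X → X → ℝ} (g : Finset X → ℝ) :
    dir W b g = gap_B W b g g := by
  unfold dir gap_B
  apply Finset.sum_congr rfl
  intro η _
  congr 1
  apply Finset.sum_congr rfl
  intro x _; ring

theorem gap_exists (h1 : ST_GNZ) {W : Finset X → ℝ} {b : Finset X → X → ℝ} (hW : ∀ η, 0 < W η)
    (hb : ∀ η x, 0 < b η x) (hc : Compat W b) (f : Finset X → ℝ) (hf : ∑ η, W η * f η = 0) :
    ∃ g, ∀ η, gen b g η = - f η := by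
  have hS : 0 < ∑ η, W η := Finset.sum_pos (fun η _ => hW η) ⟨∅, mem_univ _⟩
  have hinj : Function.Injective (gap_L W b) := by
    rw [← LinearMap.ker_eq_bot, LinearMap.ker_eq_bot']
    intro g hg
    have h2 : ∀ η, gen b g η + ∑ ζ, W ζ * g ζ = 0 := fun η => by
      rw [← gap_L_apply, hg]; rfl
    have h3 : ∑ η, W η * (gen b g η + ∑ ζ, W ζ * g ζ) = 0 := by
      apply Finset.sum_eq_zero; intro η _; rw [h2 η, mul_zero]
    have h4 : ∑ η, W η * (gen b g η + ∑ ζ, W ζ * g ζ) =
        ∑ η, W η * gen b g η + (∑ η, W η) * ∑ ζ, W ζ * g ζ := by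
      rw [Finset.sum_mul, ← Finset.sum_add_distrib]
      exact Finset.sum_congr rfl fun _ _ => by ring
    rw [h4, gap_gen_mean h1 hc, zero_add] at h3
    have h5 : ∑ ζ, W ζ * g ζ = 0 := (mul_eq_zero.1 h3).resolve_left hS.ne'
    have h6 : ∀ η, gen b g η = 0 := fun η => by have := h2 η; rw [h5] at this; linarith
    have h7 : dir W b g = 0 := by
      have := gap_sbp h1 hc g g
      rw [gap_dir_eq]
      have h8 : ∑ η, W η * (g η * gen b g η) = 0 := by
        apply Finset.sum_eq_zero; intro η _; rw [h6 η]; ring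
      linarith
    have h8 := gap_const hW hb h7
    have h9 : ∑ ζ, W ζ * g ζ = (∑ ζ, W ζ) * g ∅ := by
      rw [Finset.sum_mul]
      exact Finset.sum_congr rfl fun ζ _ => by rw [h8 ζ]
    rw [h9] at h5
    have h10 : g ∅ = 0 := (mul_eq_zero.1 h5).resolve_left hS.ne'
    funext η
    rw [h8 η, h10]; rfl
  have hsurj : Function.Surjective (gap_L W b) := LinearMap.injective_iff_surjective.1 hinj
  obtain ⟨g, hg⟩ := hsurj (fun η => - f η)
  refine ⟨g, ?_⟩
  have h2 : ∀ η, gen b g η + ∑ ζ, W ζ * g ζ = - f η := fun η => by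
    rw [← gap_L_apply, hg]
  have h4 : ∑ η, W η * (gen b g η + ∑ ζ, W ζ * g ζ) =
      ∑ η, W η * gen b g η + (∑ η, W η) * ∑ ζ, W ζ * g ζ := by
    rw [Finset.sum_mul, ← Finset.sum_add_distrib]
    exact Finset.sum_congr rfl fun _ _ => by ring
  have h5 : ∑ η, W η * (gen b g η + ∑ ζ, W ζ * g ζ) = 0 := by
    have : ∑ η, W η * (gen b g η + ∑ ζ, W ζ * g ζ) = - ∑ η, W η * f η := by
      rw [← Finset.sum_neg_distrib]
      exact Finset.sum_congr rfl fun η _ => by rw [h2 η]; ring
    rw [this, hf, neg_zero]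
  rw [h4, gap_gen_mean h1 hc, zero_add] at h5
  have h6 : ∑ ζ, W ζ * g ζ = 0 := (mul_eq_zero.1 h5).resolve_left hS.ne'
  intro η
  have := h2 η
  rw [h6] at this
  linarith

end

theorem st_GAP (h1 : ST_GNZ) : ST_GAP := by
  intro X _ _ W b hW hb hc κ hκ hgap f
  have hS : 0 < ∑ η, W η := Finset.sum_pos (fun η _ => hW η) ⟨∅, mem_univ _⟩
  set S := ∑ η, W η with hSdef
  set A := ∑ η, W η * f η with hA
  set f0 : Finset X → ℝ := fun η => f η - A / S with hf0
  have hmean : ∑ η, W η * f0 η = 0 := by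
    have : ∑ η, W η * f0 η = A - S * (A / S) := by
      rw [hA, hSdef, Finset.sum_mul, ← Finset.sum_sub_distrib]
      exact Finset.sum_congr rfl fun η _ => by simp only [hf0]; ring
    rw [this]; field_simp; ring
  obtain ⟨g, hg⟩ := gap_exists h1 hW hb hc f0 hmean
  set V := ∑ η, W η * f0 η ^ 2 with hV
  have hVB : V = gap_B W b f0 g := by
    have h2 := gap_sbp h1 hc f0 g
    have h3 : ∑ η, W η * (f0 η * gen b g η) = - V := by
      rw [hV, ← Finset.sum_neg_distrib]
      exact Finset.sum_congr rfl fun η _ => by rw [hg η]; ring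
    linarith
  have hdg : κ * dir W b g ≤ V := by
    have := hgap g
    have h3 : ∑ η, W η * gen b g η ^ 2 = V := by
      exact Finset.sum_congr rfl fun η _ => by rw [hg η]; ring
    rwa [h3] at this
  have hdf : dir W b f0 = dir W b f := by
    unfold dir
    apply Finset.sum_congr rfl
    intro η _
    congr 1
    apply Finset.sum_congr rfl
    intro x _
    simp only [dd, hf0]; ring
  have hpos : 0 ≤ dir W b (fun η => f0 η - κ * g η) := by
    unfold dir
    apply Finset.sum_nonneg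
    intro η _
    apply mul_nonneg (hW η).le
    apply Finset.sum_nonneg
    intro x _
    exact mul_nonneg (hb η x).le (sq_nonneg _)
  have hexp : dir W b (fun η => f0 η - κ * g η) =
      dir W b f0 - 2 * κ * gap_B W b f0 g + κ ^ 2 * dir W b g := by
    unfold dir gap_B
    rw [Finset.mul_sum, Finset.mul_sum, ← Finset.sum_sub_distrib, ← Finset.sum_add_distrib]
    apply Finset.sum_congr rfl
    intro η _
    have : ∑ x ∈ ηᶜ, b η x * dd (fun η => f0 η - κ * g η) η x ^ 2 =
        ∑ x ∈ ηᶜ, b η x * dd f0 η x ^ 2 - 2 * κ * ∑ x ∈ ηᶜ, b η x * (dd f0 η x * dd g η x) +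
          κ ^ 2 * ∑ x ∈ ηᶜ, b η x * dd g η x ^ 2 := by
      rw [Finset.mul_sum, Finset.mul_sum, ← Finset.sum_sub_distrib, ← Finset.sum_add_distrib]
      apply Finset.sum_congr rfl
      intro x _
      simp only [dd]; ring
    rw [this]; ring
  rw [hexp, ← hVB, hdf] at hpos
  have h5 : κ * V ≤ dir W b f := by
    have : κ ^ 2 * dir W b g ≤ κ * V := by
      have := mul_le_mul_of_nonneg_left hdg hκ.le
      calc κ ^ 2 * dir W b g = κ * (κ * dir W b g) := by ring
        _ ≤ κ * V := this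
    linarith
  have h6 : S * (∑ η, W η * f η ^ 2) - A ^ 2 = S * V := by
    have : V = ∑ η, W η * f η ^ 2 - 2 * (A / S) * A + (A / S) ^ 2 * S := by
      rw [hV, hA, hSdef, Finset.mul_sum, Finset.mul_sum, ← Finset.sum_sub_distrib,
        ← Finset.sum_add_distrib]
      exact Finset.sum_congr rfl fun η _ => by simp only [hf0]; ring
    rw [this]; field_simp; ring
  rw [h6]
  have h7 : V ≤ κ⁻¹ * dir W b f := by
    rw [inv_mul_eq_div, le_div_iff₀ hκ]; linarith
  calc S * V ≤ S * (κ⁻¹ * dir W b f) := mul_le_mul_of_nonneg_left h7 hS.le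
    _ = κ⁻¹ * S * dir W b f := by ring

end Pool.Agent.Helper44.GF
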